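import Pool.Agent.TH882.J5

/-!
# Goldbach representations with a prime in a cluster of primes, in the right number

For all `m`, `ε > 0` and `η > 0` there is `c > 0` such that for all large `x` all even integers
`N ≤ x`, with at most `η x` exceptions, have at least `c N ^ 2 / (φ(N) (log N) ^ 2)` representations
`N = p + q` as an ordered sum of two primes in which at least `m` other primes are at distance at
most `ε log N` from `p`.
-/

set_option autoImplicit false

open Finset Filter Topology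

namespace Pool.Agent.Results.MP_dd84fd_nt.ClusteredPrimes

/-- The primes different from `p` at distance at most `R` from `p`. -/
def neighbours (R : ℝ) (p : ℕ) : Set ℕ := {q : ℕ | q.Prime ∧ q ≠ p ∧ |(q : ℝ) - p| ≤ R}

open Classical in
/-- The ordered representations `N = p + q` as a sum of two primes in which at least `m` other primes
are at distance at most `R` from `p`. -/
noncomputable def representations (m : ℕ) (R : ℝ) (N : ℕ) : Finset (ℕ × ℕ) :=
  (antidiagonal N).filter (fun x => x.1.Prime ∧ x.2.Prime ∧ m ≤ (neighbours R x.1).ncard)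

open Classical in
/-- The even integers `N` in `[1, x]` with fewer than `c N ^ 2 / (φ(N) (log N) ^ 2)`
representations in which at least `m` other primes are at distance at most `ε log N` from `p`. -/
noncomputable def exceptions (m : ℕ) (ε c : ℝ) (x : ℕ) : Finset ℕ :=
  (Icc 1 x).filter (fun N => Even N ∧ ((representations m (ε * Real.log N) N).card : ℝ) <
    c * ((N : ℝ) ^ 2 / (Nat.totient N * Real.log N ^ 2)))

theorem neighbours_finite (R : ℝ) (p : ℕ) : (neighbours R p).Finite := by
  refine (finite_toSet (Icc 0 (p + ⌊R⌋₊))).subset ?_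
  rintro q ⟨-, -, h⟩
  rw [mem_coe, mem_Icc]
  refine ⟨Nat.zero_le _, ?_⟩
  by_contra hcon
  push Not at hcon
  have hR : 0 ≤ R := (abs_nonneg _).trans h
  have h1 : (q : ℝ) - p ≤ R := (le_abs_self _).trans h
  have h2 : ((q - p : ℕ) : ℝ) ≤ R := by
    rw [Nat.cast_sub (by omega)]
    exact h1
  have h3 : q - p ≤ ⌊R⌋₊ := Nat.le_floor h2
  omega

/-- **Goldbach representations with a clustered prime.** -/
theorem result (m : ℕ) (ε η : ℝ) (hε : 0 < ε) (hη : 0 < η) : ∃ c : ℝ, 0 < c ∧
    ∀ᶠ x : ℕ in atTop, ((exceptions m ε c x).card : ℝ) ≤ η * x := by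
  classical
  obtain ⟨c, hc, X₀, h⟩ := Pool.Agent.TH882.JS.goldbach_most
    (Pool.Agent.TH882.JS.KP m ε) (Pool.Agent.TH882.JS.KP_most m ε hε) (η / 2) (by positivity)
  refine ⟨c, hc, ?_⟩
  rw [eventually_atTop]
  apply Pool.Agent.TH882.JS.dyadic2 _ η hη
  refine ⟨max X₀ 1, fun X hX => (le_trans ?_ (h X (by omega)))⟩
  have hX1 : 1 ≤ X := by omega
  apply Nat.cast_le.2
  apply card_le_card
  intro N hN
  rw [mem_filter, mem_Ico] at hN ⊢
  obtain ⟨⟨hN1, hN2⟩, hNe, hNl⟩ := hN
  refine ⟨⟨hN1, hN2⟩, hNe, lt_of_le_of_lt ?_ hNl⟩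
  apply Nat.cast_le.2
  have hX0 : (0 : ℝ) < X := by exact_mod_cast hX1
  have hXN : (X : ℝ) ≤ N := by
    have : X ≤ N := by omega
    exact_mod_cast this
  have hlog : Real.log X ≤ Real.log N := Real.log_le_log hX0 hXN
  have hlog0 : 0 ≤ Real.log X := Real.log_nonneg (by exact_mod_cast hX1)
  refine card_le_card_of_injOn (fun p : ℕ => (p, N - p)) ?_ ?_
  · intro p hp
    unfold Pool.Agent.TH882.JS.GA at hp
    rw [mem_coe, mem_filter, mem_Ico] at hp
    obtain ⟨⟨hp1, hp2⟩, hpA, hpN⟩ := hp
    unfold Pool.Agent.TH882.JS.KP at hpA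
    rw [mem_filter] at hpA
    unfold representations
    rw [mem_coe, mem_filter, HasAntidiagonal.mem_antidiagonal]
    refine ⟨by simp only; omega, hpA.2.1, hpN, hpA.2.2.trans ?_⟩
    unfold Pool.Agent.TH882.JS.nb
    rw [← Set.ncard_coe_finset]
    apply Set.ncard_le_ncard _ (neighbours_finite _ _)
    intro q hq
    rw [mem_coe, mem_filter, mem_Icc] at hq
    obtain ⟨⟨hq1, hq2⟩, hq3, hq4⟩ := hq
    refine ⟨hq3, hq4, ?_⟩
    have hfl : ((⌊ε * Real.log X⌋₊ : ℕ) : ℝ) ≤ ε * Real.log N :=
      (Nat.floor_le (by positivity)).trans (mul_le_mul_of_nonneg_left hlog hε.le)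
    have e1 : (q : ℝ) ≤ p + (⌊ε * Real.log X⌋₊ : ℕ) := by exact_mod_cast hq2
    have e2 : (p : ℝ) ≤ q + (⌊ε * Real.log X⌋₊ : ℕ) := by
      have : p ≤ q + ⌊ε * Real.log X⌋₊ := by omega
      exact_mod_cast this
    show |(q : ℝ) - p| ≤ ε * Real.log N
    rw [abs_le]
    constructor <;> linarith
  · intro p _ p' _ hpp
    exact congrArg Prod.fst hpp

end Pool.Agent.Results.MP_dd84fd_nt.ClusteredPrimes
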