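import Pool.Agent.TH899.UG.Dich

/-!
# At every scale: bounded gaps between primes of different residue classes, or Goldbach up to a bounded
error

Let `q ≥ 1` and `m` be given. There is `C` such that for every `η > 0` and every large `N` at least one
of the following holds:
* for every `Δ` (even, if `q` is even) there is `h ≡ Δ (mod q)` with `|h| ≤ C` such that `p` and
  `p + h` are prime for at least `N ^ (1 - η)` integers `p ≤ C N`;
* for EVERY integer `M` with `N ≤ M ≤ 2 N` there are sets `E`, `F` of `m` nonnegative integers at most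
  `C` such that for at least `N ^ (1 - η)` integers `n ≤ 2 N` all `n + e` (`e ∈ E`) and all
  `2 M - n + f` (`f ∈ F`) are prime.
-/

set_option autoImplicit false

open Finset Filter

namespace Pool.Agent.Results.MP_dd84fd_nt.GoldbachOrCloseClasses

/-- The primes `p ≤ x` for which `p + h` is a prime too. -/
def primePairs (h : ℤ) (x : ℕ) : Set ℕ :=
  {p : ℕ | p ≤ x ∧ p.Prime ∧ ∃ p' : ℕ, p'.Prime ∧ (p' : ℤ) = p + h}

/-- The integers `n ≤ x`, `n ≤ 2 M` such that all `n + e` (`e ∈ E`) and all `(2 M - n) + f` (`f ∈ F`)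
are primes. -/
def commonShifts (E F : Finset ℕ) (M x : ℕ) : Set ℕ :=
  {n : ℕ | n ≤ x ∧ n ≤ 2 * M ∧ (∀ e ∈ E, (n + e).Prime) ∧ ∀ f ∈ F, (2 * M - n + f).Prime}

lemma primePairs_finite (h : ℤ) (x : ℕ) : (primePairs h x).Finite :=
  (finite_toSet (Icc 0 x)).subset fun p hp => by
    rw [mem_coe, mem_Icc]
    exact ⟨Nat.zero_le _, hp.1⟩

lemma commonShifts_finite (E F : Finset ℕ) (M x : ℕ) : (commonShifts E F M x).Finite :=
  (finite_toSet (Icc 0 x)).subset fun p hp => by
    rw [mem_coe, mem_Icc]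
    exact ⟨Nat.zero_le _, hp.1⟩

/-- an integer `n` such that `n` and `n + Δ` are not divisible by the primes of a finite set -/
lemma avoid (Δ : ℤ) (S : Finset ℕ) (hS : ∀ p ∈ S, p.Prime) (h2 : 2 ∈ S → Even Δ) :
    ∃ n : ℤ, ∀ p ∈ S, ¬ (p : ℤ) ∣ n ∧ ¬ (p : ℤ) ∣ n + Δ := by
  classical
  induction S using Finset.induction_on with
  | empty => exact ⟨0, fun p hp => absurd hp (notMem_empty p)⟩
  | insert p S hpS ih =>
    obtain ⟨n, hn⟩ := ih (fun l hl => hS l (mem_insert_of_mem hl)) (fun h => h2 (mem_insert_of_mem h))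
    have hp : p.Prime := hS p (mem_insert_self _ _)
    have hpZ : Prime (p : ℤ) := Nat.prime_iff_prime_int.1 hp
    set P : ℤ := ∏ l ∈ S, (l : ℤ) with hP
    have hPp : ¬ (p : ℤ) ∣ P := by
      intro h
      rw [hP, hpZ.dvd_finsetProd_iff] at h
      obtain ⟨l, hl, hd⟩ := h
      have hl' : l.Prime := hS l (mem_insert_of_mem hl)
      have : p = l := (Nat.prime_dvd_prime_iff_eq hp hl').1 (by exact_mod_cast hd)
      exact hpS (this ▸ hl)
    have hkeep : ∀ (k : ℤ), ∀ l ∈ S, ¬ (l : ℤ) ∣ n + k * P ∧ ¬ (l : ℤ) ∣ n + k * P + Δ := by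
      intro k l hl
      have hd : (l : ℤ) ∣ k * P := Dvd.dvd.mul_left (Finset.dvd_prod_of_mem (fun l : ℕ => (l : ℤ)) hl) _
      refine ⟨fun h => (hn l hl).1 ((Int.dvd_add_left hd).1 h), fun h => (hn l hl).2 ?_⟩
      have e : n + k * P + Δ = (n + Δ) + k * P := by ring
      rw [e] at h
      exact (Int.dvd_add_left hd).1 h
    have hex : ∃ k : ℤ, ¬ (p : ℤ) ∣ n + k * P ∧ ¬ (p : ℤ) ∣ n + k * P + Δ := by
      by_contra hcon
      push Not at hcon
      have hk : ∀ k : ℤ, (p : ℤ) ∣ n + k * P ∨ (p : ℤ) ∣ n + k * P + Δ := fun k => by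
        by_cases h : (p : ℤ) ∣ n + k * P
        · exact Or.inl h
        · exact Or.inr (hcon k h)
      by_cases hp2 : p = 2
      · subst hp2
        have hΔ : (2 : ℤ) ∣ Δ := (h2 (mem_insert_self _ _)).two_dvd
        have h0 : ((2 : ℕ) : ℤ) ∣ n + 0 * P := by
          rcases hk 0 with h | h
          · exact h
          · exact (Int.dvd_add_left hΔ).1 h
        have h1 : ((2 : ℕ) : ℤ) ∣ n + 1 * P := by
          rcases hk 1 with h | h
          · exact h
          · exact (Int.dvd_add_left hΔ).1 h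
        apply hPp
        have := dvd_sub h1 h0
        have e : n + 1 * P - (n + 0 * P) = P := by ring
        rwa [e] at this
      · have hp3 : 3 ≤ p := by
          have := hp.two_le
          omega
        have hn2 : ¬ (p : ℤ) ∣ 2 := by
          intro h
          have := Int.le_of_dvd (by norm_num) h
          omega
        -- two of the three values `k = 0, 1, 2` are of the same kind
        have hsub : ∀ (k l : ℤ) (c : ℤ), (p : ℤ) ∣ n + k * P + c → (p : ℤ) ∣ n + l * P + c →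
            ¬ (p : ℤ) ∣ (k - l) → False := by
          intro k l c h1 h2 h3
          have h4 := dvd_sub h1 h2
          have e : n + k * P + c - (n + l * P + c) = (k - l) * P := by ring
          rw [e] at h4
          rcases hpZ.dvd_or_dvd h4 with h5 | h5
          · exact h3 h5
          · exact hPp h5
        have n1 : ¬ (p : ℤ) ∣ ((1 : ℤ) - 0) := by
          intro h
          have := Int.le_of_dvd (by norm_num) h
          omega
        have n2 : ¬ (p : ℤ) ∣ ((2 : ℤ) - 0) := by simpa using hn2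
        have n3 : ¬ (p : ℤ) ∣ ((2 : ℤ) - 1) := by
          intro h
          have := Int.le_of_dvd (by norm_num) h
          omega
        have hk' : ∀ k : ℤ, (p : ℤ) ∣ n + k * P + 0 ∨ (p : ℤ) ∣ n + k * P + Δ := fun k => by
          rw [add_zero]; exact hk k
        rcases hk' 0 with h0 | h0 <;> rcases hk' 1 with h1 | h1 <;> rcases hk' 2 with h3 | h3
        · exact hsub _ _ _ h1 h0 n1
        · exact hsub _ _ _ h1 h0 n1
        · exact hsub _ _ _ h3 h0 n2
        · exact hsub _ _ _ h3 h1 n3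
        · exact hsub _ _ _ h3 h1 n3
        · exact hsub _ _ _ h3 h0 n2
        · exact hsub _ _ _ h1 h0 n1
        · exact hsub _ _ _ h1 h0 n1
    obtain ⟨k, hk1, hk2⟩ := hex
    refine ⟨n + k * P, fun l hl => ?_⟩
    rcases mem_insert.1 hl with rfl | hl
    · exact ⟨hk1, hk2⟩
    · exact hkeep k l hl

/-- every `Δ`, even if `q` is even, is a difference of two integers coprime to `q` -/
lemma difference (q : ℕ) (hq : 0 < q) (Δ : ℤ) (h2 : Even Δ ∨ Odd q) :
    ∃ ρ : ℤ, IsCoprime ρ (q : ℤ) ∧ IsCoprime (ρ + Δ) (q : ℤ) := by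
  obtain ⟨n, hn⟩ := avoid Δ q.primeFactors (fun p hp => Nat.prime_of_mem_primeFactors hp) (by
    intro h
    rcases h2 with h2 | h2
    · exact h2
    · exfalso
      have h3 := Nat.dvd_of_mem_primeFactors h
      exact (Nat.not_even_iff_odd.2 h2) (even_iff_two_dvd.2 h3))
  have key : ∀ x : ℤ, (∀ p ∈ q.primeFactors, ¬ (p : ℤ) ∣ x) → IsCoprime x (q : ℤ) := by
    intro x hx
    rw [Int.isCoprime_iff_gcd_eq_one]
    by_contra hcon
    obtain ⟨p, hp, hd⟩ := Nat.exists_prime_and_dvd hcon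
    have h1 : (p : ℤ) ∣ x := (Int.natCast_dvd_natCast.2 hd).trans (Int.gcd_dvd_left ..)
    have h3 : (p : ℤ) ∣ q := (Int.natCast_dvd_natCast.2 hd).trans (Int.gcd_dvd_right ..)
    exact hx p (Nat.mem_primeFactors.2 ⟨hp, by exact_mod_cast h3, hq.ne'⟩) h1
  exact ⟨n, key n fun p hp => (hn p hp).1, key (n + Δ) fun p hp => (hn p hp).2⟩

open Classical in
/-- pigeonhole over the bounded differences -/
lemma pigeon (q C x : ℕ) (Δ : ℤ)
    (h0 : 0 < ((Icc 1 x).filter (fun p : ℕ => Pool.Agent.TH899.UG.Dich.Mixed q C Δ p)).card) :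
    ∃ h : ℤ, (q : ℤ) ∣ h - Δ ∧ |h| ≤ C ∧
      ((Icc 1 x).filter (fun p : ℕ => Pool.Agent.TH899.UG.Dich.Mixed q C Δ p)).card ≤
        (2 * C + 1) * (primePairs h x).ncard := by
  set F := (Icc 1 x).filter (fun p : ℕ => Pool.Agent.TH899.UG.Dich.Mixed q C Δ p) with hF
  set H : Finset ℤ := (Icc (-(C : ℤ)) C).filter (fun h => (q : ℤ) ∣ h - Δ) with hH
  have hsub : F ⊆ H.biUnion (fun h => (primePairs_finite h x).toFinset) := by
    intro p hp
    rw [hF, mem_filter, mem_Icc] at hp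
    obtain ⟨⟨hp1, hp2⟩, hp3, p', hp4, hp5, hp6⟩ := hp
    rw [mem_biUnion]
    refine ⟨(p' : ℤ) - p, ?_, ?_⟩
    · rw [hH, mem_filter, mem_Icc]
      exact ⟨abs_le.1 hp5, hp6⟩
    · rw [Set.Finite.mem_toFinset]
      exact ⟨hp2, hp3, p', hp4, by ring⟩
  have hcard := (card_le_card hsub).trans card_biUnion_le
  by_contra hcon
  push Not at hcon
  have hne : H.Nonempty := by
    rw [nonempty_iff_ne_empty]
    intro h
    rw [h, biUnion_empty] at hsub
    have := card_le_card hsub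
    rw [card_empty] at this
    omega
  have hHc : H.card ≤ 2 * C + 1 := by
    refine (card_filter_le _ _).trans ?_
    rw [Int.card_Icc]
    omega
  have h1 : ∑ h ∈ H, (2 * C + 1) * ((primePairs_finite h x).toFinset).card < ∑ _h ∈ H, F.card := by
    apply sum_lt_sum_of_nonempty hne
    intro h hh
    rw [hH, mem_filter, mem_Icc] at hh
    have h2 := hcon h hh.2 (abs_le.2 hh.1)
    rwa [Set.ncard_eq_toFinset_card _ (primePairs_finite h x)] at h2
  rw [← mul_sum, sum_const, smul_eq_mul] at h1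
  have h3 : H.card * F.card ≤ (2 * C + 1) * F.card := Nat.mul_le_mul_right _ hHc
  have h4 : (2 * C + 1) * F.card ≤
      (2 * C + 1) * ∑ h ∈ H, ((primePairs_finite h x).toFinset).card := Nat.mul_le_mul_left _ hcard
  omega

lemma two_cases : ∀ i j : Fin 2, i ≠ j → (i = 0 ∧ j = 1) ∨ (i = 1 ∧ j = 0) := by decide

lemma swap (h : ℤ) (C x : ℕ) (hC : |h| ≤ C) :
    (primePairs h x).ncard ≤ (primePairs (-h) (x + C)).ncard := by
  refine Set.ncard_le_ncard_of_injOn (fun p : ℕ => ((p : ℤ) + h).toNat) ?_ ?_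
    (primePairs_finite _ _)
  · rintro p ⟨h1, h2, p', h3, h4⟩
    have h5 := (abs_le.1 hC).2
    refine ⟨?_, ?_, p, h2, ?_⟩
    · show ((p : ℤ) + h).toNat ≤ x + C
      omega
    · show (((p : ℤ) + h).toNat).Prime
      rw [← h4, Int.toNat_natCast]
      exact h3
    · show (p : ℤ) = ((((p : ℤ) + h).toNat : ℕ) : ℤ) + -h
      rw [← h4, Int.toNat_natCast, h4]
      ring
  · rintro p ⟨-, -, p', -, h4⟩ r ⟨-, -, r', -, h5⟩ hpr
    simp only at hpr
    rw [← h4, ← h5, Int.toNat_natCast, Int.toNat_natCast] at hpr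
    have : (p : ℤ) = r := by
      have e : (p' : ℤ) = r' := by exact_mod_cast hpr
      linarith
    exact_mod_cast this

/-- **Either primes of different residue classes are close to each other, or every even number is a
sum of two primes up to a bounded error, at every scale.** -/
theorem result (q m : ℕ) (hq : 0 < q) : ∃ C : ℕ, ∀ η : ℝ, 0 < η → ∀ᶠ N : ℕ in atTop,
    (∀ Δ : ℤ, Even Δ ∨ Odd q → ∃ h : ℤ, (q : ℤ) ∣ h - Δ ∧ |h| ≤ C ∧
      (N : ℝ) ^ (1 - η) ≤ ((primePairs h (C * N)).ncard : ℝ)) ∨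
    (∀ M : ℕ, N ≤ M → M ≤ 2 * N → ∃ E F : Finset ℕ, E.card = m ∧ F.card = m ∧
      (∀ e ∈ E, e ≤ C) ∧ (∀ f ∈ F, f ≤ C) ∧
      (N : ℝ) ^ (1 - η) ≤ ((commonShifts E F M (2 * N)).ncard : ℝ)) := by
  classical
  obtain ⟨c, hc, hc1, H⟩ := Pool.Agent.TH899.UG.Dich.dich
  obtain ⟨C, H⟩ := H 2 1 1 m q 2 hq (by norm_num) (by norm_num) (by push_cast; linarith)
  refine ⟨4 * C + C, fun η hη => ?_⟩
  set η₂ : ℝ := min (η / 2) (1 / 2) with hη₂
  have hη2 : 0 < η₂ := lt_min (by positivity) (by norm_num)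
  have hη3 : η₂ ≤ 1 / 2 := min_le_right _ _
  have hη4 : η₂ ≤ η / 2 := min_le_left _ _
  -- the scale `7 N / 2`
  have hscale : Tendsto (fun N : ℕ => 7 * N / 2) atTop atTop := by
    apply tendsto_atTop_mono (f := fun N : ℕ => N) (fun N => by omega) tendsto_id
  have h1 := hscale.eventually (H η₂ hη2)
  have h2 : ∀ᶠ N : ℕ in atTop, ((2 * (C : ℝ) + 1)) ≤ (N : ℝ) ^ (η / 2) :=
    ((tendsto_rpow_atTop (by positivity)).comp tendsto_natCast_atTop_atTop).eventually_ge_atTop _
  filter_upwards [h1, h2, eventually_ge_atTop 10] with N hN hN2 hN10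
  set L : ℕ := 7 * N / 2 with hL
  have hN0 : (0 : ℝ) < N := by
    have : 0 < N := by omega
    exact_mod_cast this
  have hN1 : (1 : ℝ) ≤ N := by
    have : 1 ≤ N := by omega
    exact_mod_cast this
  have hNL : (N : ℝ) ≤ L := by
    have : N ≤ L := by omega
    exact_mod_cast this
  have hpow : (N : ℝ) ^ (1 - η₂) ≤ (L : ℝ) ^ (1 - η₂) :=
    Real.rpow_le_rpow hN0.le hNL (by linarith)
  have hsplit : (N : ℝ) ^ (η / 2) * (N : ℝ) ^ (1 - η) ≤ (N : ℝ) ^ (1 - η₂) := by
    rw [← Real.rpow_add hN0]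
    exact Real.rpow_le_rpow_of_exponent_le hN1 (by linarith)
  have hNη : 0 < (N : ℝ) ^ (1 - η) := Real.rpow_pos_of_pos hN0 _
  have hkey : (2 * (C : ℝ) + 1) * (N : ℝ) ^ (1 - η) ≤ (L : ℝ) ^ (1 - η₂) :=
    ((mul_le_mul_of_nonneg_right hN2 hNη.le).trans hsplit).trans hpow
  have hC1 : (1 : ℝ) ≤ 2 * (C : ℝ) + 1 := by
    have : (0 : ℝ) ≤ C := Nat.cast_nonneg C
    linarith
  rcases hN with hN | hN
  · left
    intro Δ hΔ
    obtain ⟨ρ, hρ1, hρ2⟩ := difference q hq Δ hΔ
    obtain ⟨i, j, hij, hij2⟩ := hN ![ρ, ρ + Δ] (by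
      intro i
      fin_cases i
      · exact hρ1
      · exact hρ2)
    have hpos : 0 < ((Icc 1 (C * L)).filter (fun p : ℕ =>
        Pool.Agent.TH899.UG.Dich.Mixed q C ((![ρ, ρ + Δ] : Fin 2 → ℤ) j - (![ρ, ρ + Δ] : Fin 2 → ℤ) i) p)).card := by
      have h3 : 0 < (L : ℝ) ^ (1 - η₂) := Real.rpow_pos_of_pos (hN0.trans_le hNL) _
      exact_mod_cast h3.trans_le hij2
    obtain ⟨h, hh1, hh2, hh3⟩ := pigeon q C (C * L) _ hpos
    have hh4 : (N : ℝ) ^ (1 - η) ≤ ((primePairs h (C * L)).ncard : ℝ) := by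
      have e1 : (((Icc 1 (C * L)).filter (fun p : ℕ =>
        Pool.Agent.TH899.UG.Dich.Mixed q C ((![ρ, ρ + Δ] : Fin 2 → ℤ) j - (![ρ, ρ + Δ] : Fin 2 → ℤ) i) p)).card : ℝ) ≤
        (2 * (C : ℝ) + 1) * ((primePairs h (C * L)).ncard : ℝ) := by exact_mod_cast hh3
      have e2 := hkey.trans (hij2.trans e1)
      exact le_of_mul_le_mul_left e2 (by linarith)
    have hLN : C * L ≤ 4 * C * N := by
      have : L ≤ 4 * N := by omega
      calc C * L ≤ C * (4 * N) := Nat.mul_le_mul_left _ this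
        _ = 4 * C * N := by ring
    have hCN : C ≤ C * N := Nat.le_mul_of_pos_right _ (by omega)
    have hx1 : C * L ≤ (4 * C + C) * N := by
      rw [add_mul]
      omega
    have hx2 : C * L + C ≤ (4 * C + C) * N := by
      rw [add_mul]
      omega
    have hmono : ∀ (g : ℤ) (x y : ℕ), x ≤ y → (primePairs g x).ncard ≤ (primePairs g y).ncard := by
      intro g x y hxy
      exact Set.ncard_le_ncard (fun p hp => ⟨hp.1.trans hxy, hp.2⟩) (primePairs_finite _ _)
    have hbd : |h| ≤ ((4 * C + C : ℕ) : ℤ) := hh2.trans (by push_cast; omega)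
    have hcases : (i = 0 ∧ j = 1) ∨ (i = 1 ∧ j = 0) := two_cases i j hij
    rcases hcases with ⟨rfl, rfl⟩ | ⟨rfl, rfl⟩
    · refine ⟨h, ?_, hbd, hh4.trans ?_⟩
      · have e : (![ρ, ρ + Δ] : Fin 2 → ℤ) 1 - (![ρ, ρ + Δ] : Fin 2 → ℤ) 0 = Δ := by
          simp
        rwa [e] at hh1
      · exact_mod_cast hmono h _ _ hx1
    · refine ⟨-h, ?_, by rwa [abs_neg], hh4.trans ?_⟩
      · have e : (![ρ, ρ + Δ] : Fin 2 → ℤ) 0 - (![ρ, ρ + Δ] : Fin 2 → ℤ) 1 = -Δ := by
          simp
        rw [e] at hh1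
        have e2 : -h - Δ = -(h - -Δ) := by ring
        rw [e2]
        exact (dvd_neg).2 hh1
      · exact_mod_cast (swap h C (C * L) hh2).trans (hmono (-h) _ _ hx2)
  · right
    intro M hM1 hM2
    obtain ⟨S, E, hS, hE1, hE2, -, hcount⟩ := hN ![1, -1] ![0, 2 * (M : ℤ)] (by
        intro i
        fin_cases i <;> simp) (by
        intro i
        fin_cases i <;> simp) (by
        intro i
        fin_cases i
        · simp
        · show 4 * |2 * (M : ℤ)| ≤ 5 * (L : ℤ)
          rw [abs_of_nonneg (by positivity)]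
          omega) (by
        intro i x hx1 hx2
        have hL4 : (L : ℝ) ≤ 7 / 2 * N := by
          have : 2 * L ≤ 7 * N := by omega
          have h3 : (2 * L : ℝ) ≤ 7 * N := by exact_mod_cast this
          linarith
        have hMr : (N : ℝ) ≤ M := by exact_mod_cast hM1
        fin_cases i
        · show (L : ℝ) / 32 ≤ ((1 : ℤ) : ℝ) * x + ((0 : ℤ) : ℝ)
          push_cast
          have : (0 : ℝ) ≤ L := Nat.cast_nonneg L
          linarith
        · show (L : ℝ) / 32 ≤ ((-1 : ℤ) : ℝ) * x + ((2 * (M : ℤ) : ℤ) : ℝ)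
          push_cast
          linarith)
    have hSu : S = univ := by
      rw [← card_eq_iff_eq_univ, Fintype.card_fin]
      have := card_le_univ S
      rw [Fintype.card_fin] at this
      omega
    refine ⟨E 0, E 1, hE2 0 (hSu ▸ mem_univ _), hE2 1 (hSu ▸ mem_univ _),
      fun e he => (hE1 0 e he).trans (by omega), fun e he => (hE1 1 e he).trans (by omega), ?_⟩
    have h5 : (N : ℝ) ^ (1 - η) ≤ (L : ℝ) ^ (1 - η₂) := by
      refine le_trans ?_ hkey
      nlinarith
    refine (h5.trans hcount).trans ?_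
    rw [← Set.ncard_coe_finset]
    apply Nat.cast_le.2
    apply Set.ncard_le_ncard _ (commonShifts_finite _ _ _ _)
    intro n hn
    rw [mem_coe, mem_filter, mem_Icc] at hn
    obtain ⟨⟨hn1, hn2⟩, hn3, hn4, hn5⟩ := hn
    have hn6 : 2 * n ≤ L := by
      have : (2 * n : ℝ) ≤ L := by linarith
      exact_mod_cast this
    refine ⟨by omega, by omega, ?_, ?_⟩
    · intro e he
      have h6 := hn5 0 (hSu ▸ mem_univ _) e he
      have e1 : (((![1, -1] : Fin 2 → ℤ) 0) * (n : ℤ) +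
          (((![0, 2 * (M : ℤ)] : Fin 2 → ℤ) 0) + (e : ℤ))).toNat = n + e := by
        simp only [Matrix.cons_val_zero]
        omega
      rwa [e1] at h6
    · intro e he
      have h6 := hn5 1 (hSu ▸ mem_univ _) e he
      have e1 : (((![1, -1] : Fin 2 → ℤ) 1) * (n : ℤ) +
          (((![0, 2 * (M : ℤ)] : Fin 2 → ℤ) 1) + (e : ℤ))).toNat = 2 * M - n + e := by
        simp only [Matrix.cons_val_one, Matrix.cons_val_zero]
        omega
      rwa [e1] at h6

end Pool.Agent.Results.MP_dd84fd_nt.GoldbachOrCloseClasses
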