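import Mathlib
import Pool.Agent.N646.RG.All

/-!
# Goldbach representations of the right order in every window, or all small prime gaps

Let `g(n)` be the number of the ordered pairs of primes with sum `n` and `π_h(y)` the number of the primes
`p ≤ y` such that `p + h` is prime.

Theorem. For all `ε, λ > 0` there is `κ > 0` such that for all large `x` and ALL `L` with
`λ log x ≤ L ≤ x / 8` at least one of the following holds.

(a) EVERY interval `[u, u + L)` with `x ≤ u ≤ 2 x` contains at least `(5 / 27 - ε) (L / 2)` even numbers `n`
with `g(n) ≥ κ n / log² n`. (So at least the proportion `5 / 27 - ε` of the even numbers of the interval.)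

(b) At least `(1 - ε) (L / 40)` of the even numbers `h ≤ L / 20` (all but the proportion `ε` of them) satisfy
`π_h(3 x) ≥ κ x / log² x`.

So for `L = λ log x`, any small multiple of the average distance of consecutive primes: unless the lower bound
of Q1 holds for a positive proportion of the even numbers in EVERY interval of length `L`, almost all even
numbers up to `L / 20` are differences of the expected number of pairs of primes.

Proof. (1) The coloured Maynard-Tao theorem with the constant `18 / 5` and the right order of magnitude for
linear forms (starting files), here for the forms `± n + c`, together with moment bounds for the integers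
without small prime factors in intervals of length `log x`, shows that for most configurations of `t` classes
of `K` forms there are `5 t / 18` classes with a transversal all of whose pairs are prime together with the
right order: for a bad pair the configurations containing it contribute little (Cauchy-Schwarz). (2) Random
sampling, a hypergraph box lemma and hypergraph containers give for the four forms `n`, `n + r`, `m - n`,
`m - r - n` (`r < M`, `m` near `u`) sets `A_0, A_1, B_0, B_1` of relative densities with sum `> 10 / 9 - ε` in the
multiples `M t`, `t < T`, of the shifts, almost all of whose pairs have the right order. (3) If (b) fails in the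
class `r` modulo `M`, then `A_0, A_1` together and `B_0, B_1` together have density `≤ 11 / 10`, so both sides
are present and Pollard's inequality shows that their popular sums fill the proportion `10 / 9 - ε` of three
classes (of `m`, `m + r`, `m - r` modulo `M`) in the interval; the mean over `m` is (a).

Lean parts by helpers 646, 434, 31, 123, 316, 700 (and 592, 692, 415, 591, 595, project RQ).
-/

set_option autoImplicit false

namespace Pool.Agent.Results.MP_dd84fd_nt.GoldbachOrPrimePairs

open Filter Finset

/-- the number of the ordered pairs of primes with sum `n` -/
def goldbach (n : ℕ) : ℕ :=
  ((antidiagonal n).filter (fun x => x.1.Prime ∧ x.2.Prime)).card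

/-- the number of the primes `p ≤ y` such that `p + h` is prime -/
def primePairs (y h : ℕ) : ℕ :=
  ((Icc 1 y).filter (fun p => p.Prime ∧ (p + h).Prime)).card

open Classical in
/-- **The Goldbach lower bound for a positive proportion of every window, or almost all small even
numbers are differences of the expected number of prime pairs.** -/
theorem result : ∀ ε lam : ℝ, 0 < ε → 0 < lam → ∃ κ : ℝ, 0 < κ ∧ ∀ᶠ x : ℕ in atTop,
    ∀ L : ℕ, lam * Real.log x ≤ L → 8 * L ≤ x →
      (∀ u : ℕ, x ≤ u → u ≤ 2 * x → (5 / 27 - ε) * (L / 2) ≤
        (((Ico u (u + L)).filter (fun n : ℕ =>
          Even n ∧ κ * (n / (Real.log n) ^ 2) ≤ (goldbach n : ℝ))).card : ℝ)) ∨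
      (1 - ε) * (L / 40) ≤
        (((Icc 1 (L / 20)).filter (fun h : ℕ =>
          Even h ∧ κ * (x / (Real.log x) ^ 2) ≤ (primePairs (3 * x) h : ℝ))).card : ℝ) :=
  fun ε lam hε hlam => Pool.Agent.N646.RG.goldbach_final ε lam hε hlam

end Pool.Agent.Results.MP_dd84fd_nt.GoldbachOrPrimePairs
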