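import Pool.Agent.N193.PS.Conv
import Pool.Agent.N625.DY.I
import Pool.Agent.H560R3.GB.Defs

/-!
# The lower bound for the number of Goldbach representations near the values of functions of non-integral index

Definitions used (starting file `Pool.Agent.H560R3.GB.Defs`): `C₂`: the twin prime constant
`∏_{p > 2} (1 - 1 / (p - 1) ^ 2)`; `sing m`: the singular series `2 C₂ ∏_{p ∣ m, p > 2} (p - 1) / (p - 2)`; `g m`: the
number of the ordered pairs of primes with the sum `m`. From Mathlib: `ContDiffAt ℝ ⊤`: infinitely differentiable at a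
point; `iteratedDeriv m f`: the derivative of order `m`; `⌊y⌋₊`: the integer part of `y`, and `0` for `y < 0`.

Method: the characteristic function of the integer part of `f n` is small at all frequencies which are not close to
integers (van der Corput differencing and the inequality of Kusmin and Landau on dyadic blocks for all orders of
differencing, a discrete Fejer kernel for the passage to integer parts), and the values are not concentrated on short
intervals. The passage from such exponential sums to Goldbach representations in windows is from the starting files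
(`Pool.Agent.W93`, `Pool.Agent.TH872.An3`) and from `Pool.Agent.N625.DY` (helper625).
-/

set_option autoImplicit false

namespace Pool.Agent.Results.MP_dd84fd_nt.NonIntegralOrderNeighbourhoods

open Finset Filter Pool.Agent.H560R3.GB

/-- `f` is smoothly varying of index `c`: it is infinitely differentiable and positive for large arguments, and
`t ^ m f⁽ᵐ⁾(t) / f(t) → c (c - 1) ... (c - m + 1)` for every `m`. -/
def SmoothlyVarying (c : ℝ) (f : ℝ → ℝ) : Prop :=
  (∃ t₀ : ℝ, ∀ t > t₀, ContDiffAt ℝ ((⊤ : ℕ∞) : WithTop ℕ∞) f t ∧ 0 < f t) ∧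
  ∀ m : ℕ, Tendsto (fun t => t ^ m * iteratedDeriv m f t / f t) atTop (nhds (∏ i ∈ range m, (c - i)))

/-- The number of primes `p` with `y₁ < p ≤ y₂` such that `m - p` is a prime. -/
def R (m y₁ y₂ : ℕ) : ℕ := ((Ioc y₁ y₂).filter (fun p => p.Prime ∧ (m - p).Prime)).card

/-- (1) the number `g m` of representations of `m` as a sum of two primes is at least `(1 - ε) 2 C₂ m / log ^ 2 m` and
agrees with `sing m * m / log ^ 2 m` up to a relative error of at most `ε`; (2) in every window `(y₁, y₂]` of a length of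
at least `m / log ^ A m` with `0 ≤ y₁ < y₂ ≤ m` the number of primes `p` such that `m - p` is a prime agrees with
`sing m * (y₂ - y₁) / log ^ 2 m` up to a relative error of at most `ε`. -/
def Holds (ε : ℝ) (A m : ℕ) : Prop :=
  ((1 - ε) * (2 * C₂) * m / Real.log m ^ 2 ≤ g m ∧
    |(g m : ℝ) - sing m * m / Real.log m ^ 2| ≤ ε * (sing m * m / Real.log m ^ 2)) ∧
  ∀ y₁ y₂ : ℕ, y₁ < y₂ → y₂ ≤ m → (m : ℝ) / Real.log m ^ A ≤ (y₂ : ℝ) - y₁ →
    |(R m y₁ y₂ : ℝ) - sing m * ((y₂ : ℝ) - y₁) / Real.log m ^ 2| ≤ ε * (sing m * ((y₂ : ℝ) - y₁) / Real.log m ^ 2)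

lemma g_eq (m : ℕ) : g m = R m 0 m := by
  unfold g R
  symm
  apply card_bij (fun p _ => (p, m - p))
  · intro p hp
    rw [mem_filter, mem_Ioc] at hp
    rw [mem_filter, HasAntidiagonal.mem_antidiagonal]
    exact ⟨by omega, hp.2⟩
  · intro p _ q _ h
    exact (Prod.ext_iff.1 h).1
  · rintro ⟨p, q⟩ h
    rw [mem_filter, HasAntidiagonal.mem_antidiagonal] at h
    simp only at h
    refine ⟨p, ?_, ?_⟩
    · rw [mem_filter, mem_Ioc]
      refine ⟨⟨h.2.1.pos, by omega⟩, h.2.1, ?_⟩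
      rw [← h.1, Nat.add_sub_cancel_left]
      exact h.2.2
    · rw [← h.1, Nat.add_sub_cancel_left]

lemma C2_nonneg : 0 ≤ C₂ := by
  have h := Pool.Agent.W93.GB.one_le_sing 1
  unfold sing at h
  simp only [Nat.primeFactors_one, filter_empty, prod_empty, mul_one] at h
  linarith

lemma le_sing (m : ℕ) : 2 * C₂ ≤ sing m := by
  unfold sing
  have h0 := C2_nonneg
  have h1 : (1 : ℝ) ≤ ∏ p ∈ m.primeFactors.filter (fun p => 2 < p), ((p : ℝ) - 1) / ((p : ℝ) - 2) := by
    apply prod_induction _ (fun y : ℝ => 1 ≤ y) (fun a b ha hb => one_le_mul_of_one_le_of_one_le ha hb) le_rfl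
    intro p hp
    rw [mem_filter] at hp
    have h2 : (3 : ℝ) ≤ p := by exact_mod_cast hp.2
    rw [one_le_div (by linarith)]
    linarith
  nlinarith

lemma holds_of (ε : ℝ) (hε1 : ε ≤ 1) (A : ℕ) (m : ℕ) (hm : 3 ≤ m)
    (hwin : Pool.Agent.W93.PG.WinP ε A m) : Holds ε A m := by
  unfold Pool.Agent.W93.PG.WinP at hwin
  have hR : ∀ y₁ y₂, Pool.Agent.W93.PG.cnt m y₁ y₂ = R m y₁ y₂ := fun _ _ => rfl
  simp only [hR] at hwin
  have hm0 : (0 : ℝ) < m := by exact_mod_cast (by omega : 0 < m)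
  have hl : 1 ≤ Real.log m := by
    rw [Real.le_log_iff_exp_le hm0]
    have : (3 : ℝ) ≤ m := by exact_mod_cast hm
    linarith [Real.exp_one_lt_d9]
  have h1 := hwin 0 m (by omega) le_rfl (by
    push_cast
    rw [sub_zero]
    exact div_le_self hm0.le (one_le_pow₀ hl))
  rw [← g_eq] at h1
  push_cast at h1
  rw [sub_zero] at h1
  have h2 := le_sing m
  refine ⟨⟨?_, h1⟩, hwin⟩
  have h3 := (abs_le.1 h1).1
  have h4 : (2 * C₂) * m / Real.log m ^ 2 ≤ sing m * m / Real.log m ^ 2 := by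
    apply div_le_div_of_nonneg_right _ (by positivity)
    exact mul_le_mul_of_nonneg_right h2 hm0.le
  have h5 : (1 - ε) * (2 * C₂) * m / Real.log m ^ 2 = (1 - ε) * ((2 * C₂) * m / Real.log m ^ 2) := by ring
  rw [h5]
  have h6 := mul_le_mul_of_nonneg_left h4 (by linarith : 0 ≤ 1 - ε)
  linarith

open Pool.Agent.N193.PS

open Classical in
/-- **(1)** Let `f` be smoothly varying of an index `c > 0` which is not an integer, and let `κ ≠ 0`, `B`, `A`, `W`, `U`, `a` and
`0 < ε ≤ 1` be fixed. Let `N` be large, let `x` be such that `f n ≤ N` for the integers `1 ≤ n ≤ x` and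
`N ≤ f x log ^ a N`, and let `|c₀| ≤ B N`. Then all the integers `1 ≤ n ≤ x`, with at most `x / log ^ U N` exceptions,
have the following property: every positive even integer `m` at a distance of at most `log ^ W N` from
`c₀ + κ ⌊f n⌋` has `sing m * m / log ^ 2 m ≥ 2 C₂ m / log ^ 2 m` representations as a sum of two primes up to a relative
error of at most `ε`, and the same holds for the representations with one prime in a given window, for all windows of a
length of at least `m / log ^ A m`.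

**(2)** Part (1) applies to all the functions `f t = ∑ a z t ^ z.1 (log t) ^ z.2` (finite sums) with a leading term `z₀`
whose coefficient is positive and whose exponent `c = z₀.1` is positive and not an integer; for example to `n ^ c`. -/
theorem result :
    (∀ (c : ℝ) (f : ℝ → ℝ), 0 < c → (∀ m : ℕ, c ≠ m) → SmoothlyVarying c f →
      ∀ (κ : ℤ), κ ≠ 0 → ∀ (B A W U a : ℕ) (ε : ℝ), 0 < ε → ε ≤ 1 → ∃ N₀ : ℕ, ∀ N : ℕ, N₀ ≤ N → ∀ x : ℕ,
      (∀ n ∈ Icc 1 x, f n ≤ N) → (N : ℝ) ≤ Real.log N ^ a * f x →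
      ∀ c₀ : ℤ, |c₀| ≤ B * N →
        (((Icc 1 x).filter fun n : ℕ => ¬ ∀ m : ℤ, ((|m - (c₀ + κ * (⌊f n⌋₊ : ℕ))| : ℤ) : ℝ) ≤ Real.log N ^ W →
          0 < m ∧ Even m → Holds ε A m.toNat).card : ℝ) ≤ x / Real.log N ^ U) ∧
    (∀ (F : Finset (ℝ × ℝ)) (a : ℝ × ℝ → ℝ) (z₀ : ℝ × ℝ), z₀ ∈ F → 0 < a z₀ →
      (∀ z ∈ F, z ≠ z₀ → z.1 < z₀.1 ∨ z.1 = z₀.1 ∧ z.2 < z₀.2) →
      SmoothlyVarying z₀.1 (fun t => ∑ z ∈ F, a z * t ^ z.1 * Real.log t ^ z.2)) := by
  refine ⟨fun c f hc hn hf κ hκ B A W U a ε hε hε1 => ?_, fun F a z₀ h1 h2 h3 => gp_sv F a z₀ h1 h2 h3⟩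
  have hsv := sv_of c hc hn f hf
  obtain ⟨Q, hQ⟩ : ∃ Q : ℤ → Prop, Q = fun m => (0 < m ∧ Even m → Holds ε A m.toNat) := ⟨_, rfl⟩
  obtain ⟨k₀, h0⟩ := Pool.Agent.N625.DY.cls_gold (hsv.clsV (a + 1) κ hκ).toCls B A W (U + 1) 3 ε hε (Holds ε A)
    (fun m hm _ hwin => holds_of ε hε1 A m hm hwin) Q (fun y hy => by
      rw [hQ] at hy
      push Not at hy
      exact ⟨hy.1.1, hy.1.2, hy.2⟩)
  refine ⟨2 ^ k₀ + 4, fun N hN x hup hlow c₀ hc₀ => ?_⟩
  rcases Nat.eq_zero_or_pos x with rfl | hx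
  · simp
  have hk2 : 0 < 2 ^ k₀ := by positivity
  have hN4 : 4 ≤ N := by omega
  have hNk : N ≤ 2 ^ dg N := (lt_dg N).le
  obtain ⟨hval, hsize⟩ := conv (fun m => iteratedDeriv m f) a N x hN4
    (by simpa only [iteratedDeriv_zero] using hup) (by simpa only [iteratedDeriv_zero] using hlow)
  have h1 := count_of (a + 1) (dg N) x hx hval hsize
    (fun v => ∀ y : ℤ, |y - (c₀ + κ * (v : ℕ))| ≤ ((dg N : ℕ) : ℤ) ^ W → Q y) (1 / (dg N : ℝ) ^ (U + 1))
    (fun p hp => h0 (dg N) (dg_large k₀ N (by omega)) p hp c₀ (by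
        refine hc₀.trans (mul_le_mul_of_nonneg_left ?_ (Nat.cast_nonneg _))
        exact_mod_cast hNk))
  refine le_trans ?_ (h1.trans (scale_x N U x hN4))
  apply Nat.cast_le.2
  apply card_le_card
  intro n hn
  rw [mem_filter] at hn ⊢
  refine ⟨hn.1, fun hcon => hn.2 ?_⟩
  intro m hm
  have h2 : |m - (c₀ + κ * (⌊f n⌋₊ : ℕ))| ≤ ((dg N : ℕ) : ℤ) ^ W := by
    have h3 : ((|m - (c₀ + κ * (⌊f n⌋₊ : ℕ))| : ℤ) : ℝ) ≤ ((((dg N : ℕ) : ℤ) ^ W : ℤ) : ℝ) := by
      refine hm.trans ?_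
      push_cast
      exact pow_le_pow_left₀ (Real.log_natCast_nonneg N) (log_le_dg N (by omega)) W
    exact_mod_cast h3
  rw [val_iter] at hcon
  have h4 := hcon m h2
  rw [hQ] at h4
  exact h4

end Pool.Agent.Results.MP_dd84fd_nt.NonIntegralOrderNeighbourhoods
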